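import Pool.Agent.Helper27_Sid.Basic

set_option autoImplicit false

open Finset

namespace Pool.Agent.H37SID

open Pool.Agent.Helper27_Sid

variable {G : Type*} [AddCommGroup G] [Fintype G] [DecidableEq G]

lemma exists_double_ne {c : ℕ} (s : Finset G) (h : s.card ≤ c) (hc : c < Fintype.card G) :
    ∃ x : G, x ∉ s := by
  by_contra hcon
  push Not at hcon
  have : s = univ := by
    ext x
    simp [hcon x]
  rw [this, Finset.card_univ] at h
  omega

/-- A finite abelian group with exactly one involution and order 2, 4, 8 or 14 is cyclic. -/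
lemma cyclic_of {m : ℕ} (hm1 : 1 ≤ m) (hm : m ≤ 4) (hcard : Fintype.card G + m = m * m + 2)
    (h2 : (univ.filter fun y : G => y + y = 0).card = 2)
    (hfib : ∀ x : G, (univ.filter fun y : G => y + y = x).card ≤ 2) : IsAddCyclic G := by
  have hN : Nat.card G = Fintype.card G := Nat.card_eq_fintype_card
  have hz : ∀ x : G, Fintype.card G • x = 0 := fun x => card_nsmul_eq_zero
  have hp2 : Fact (Nat.Prime 2) := ⟨Nat.prime_two⟩
  interval_cases m
  · have h : Fintype.card G = 2 := by omega
    exact isAddCyclic_of_prime_card (p := 2) (by rw [hN, h])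
  · have h : Fintype.card G = 4 := by omega
    obtain ⟨x, hx⟩ := exists_double_ne (univ.filter fun y : G => y + y = 0) h2.le (by omega)
    rw [mem_filter] at hx
    have hx' : x + x ≠ 0 := fun h => hx ⟨mem_univ _, h⟩
    apply isAddCyclic_of_addOrderOf_eq_card x
    rw [hN, h]
    have := addOrderOf_eq_prime_pow (p := 2) (n := 1) (x := x)
      (by rw [pow_one, two_nsmul]; exact hx') (by rw [← hz x, h]; norm_num)
    rw [this]
    norm_num
  · have h : Fintype.card G = 8 := by omega
    obtain ⟨u, hu, hu2⟩ : ∃ u : G, u ≠ 0 ∧ u + u = 0 := by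
      have h3 : 1 < (univ.filter fun y : G => y + y = 0).card := by omega
      rw [Finset.one_lt_card] at h3
      obtain ⟨a, ha, b, hb, hab⟩ := h3
      rw [mem_filter] at ha hb
      by_cases h0 : a = 0
      · exact ⟨b, fun h => hab (by rw [h0, h]), hb.2⟩
      · exact ⟨a, h0, ha.2⟩
    have hall : ∀ y : G, y + y = 0 → y = 0 ∨ y = u := by
      intro y hy
      by_contra hcon
      push Not at hcon
      have h3 : ({0, u, y} : Finset G) ⊆ univ.filter fun y : G => y + y = 0 := by
        intro z hz
        simp only [mem_insert, mem_singleton] at hz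
        rw [mem_filter]
        rcases hz with rfl | rfl | rfl
        · exact ⟨mem_univ _, by rw [add_zero]⟩
        · exact ⟨mem_univ _, hu2⟩
        · exact ⟨mem_univ _, hy⟩
      have h4 := card_le_card h3
      rw [h2, card_insert_of_notMem, card_insert_of_notMem, card_singleton] at h4
      · omega
      · rw [mem_singleton]
        exact fun h => hcon.2 h.symm
      · simp only [mem_insert, mem_singleton, not_or]
        exact ⟨fun h => hu h.symm, fun h => hcon.1 h.symm⟩
    obtain ⟨x, hx⟩ := exists_double_ne (c := 4)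
      ((univ.filter fun y : G => y + y = 0) ∪ (univ.filter fun y : G => y + y = u))
      ((card_union_le _ _).trans (by have := hfib u; omega)) (by omega)
    rw [mem_union, mem_filter, mem_filter] at hx
    push Not at hx
    have hx0 : x + x ≠ 0 := hx.1 (mem_univ _)
    have hxu : x + x ≠ u := hx.2 (mem_univ _)
    apply isAddCyclic_of_addOrderOf_eq_card x
    rw [hN, h]
    have h4 : ¬ (2 ^ 2) • x = 0 := by
      intro h5
      have h6 : (x + x) + (x + x) = 0 := by
        rw [← h5]
        have : (2 ^ 2 : ℕ) = 1 + 1 + 1 + 1 := by norm_num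
        rw [this]
        simp only [add_nsmul, one_nsmul]
        abel
      rcases hall _ h6 with h7 | h7
      · exact hx0 h7
      · exact hxu h7
    have := addOrderOf_eq_prime_pow (p := 2) (n := 2) (x := x) h4 (by rw [← hz x, h]; norm_num)
    rw [this]
    norm_num
  · have h : Fintype.card G = 14 := by omega
    have hp7 : Fact (Nat.Prime 7) := ⟨by norm_num⟩
    obtain ⟨x, hx⟩ := exists_prime_addOrderOf_dvd_card (G := G) 2 (by rw [h]; norm_num)
    obtain ⟨y, hy⟩ := exists_prime_addOrderOf_dvd_card (G := G) 7 (by rw [h]; norm_num)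
    apply isAddCyclic_of_addOrderOf_eq_card (x + y)
    rw [(AddCommute.all x y).addOrderOf_add_eq_mul_addOrderOf_of_coprime
      (by rw [hx, hy]; norm_num), hx, hy, hN, h]

lemma at1 : Attains (ZMod 2) 1 := by
  refine ⟨by rw [Nat.card_zmod]; norm_num, by rw [Nat.card_zmod], {0}, ?_, rfl⟩
  unfold IsSidon
  decide

lemma at2 : Attains (ZMod 4) 2 := by
  refine ⟨by rw [Nat.card_zmod]; norm_num, by rw [Nat.card_zmod]; norm_num, {0, 1}, ?_, rfl⟩
  unfold IsSidon
  decide

lemma at3 : Attains (ZMod 8) 3 := by
  refine ⟨by rw [Nat.card_zmod]; norm_num, by rw [Nat.card_zmod]; norm_num, {0, 1, 3}, ?_, rfl⟩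
  unfold IsSidon
  decide

lemma at4 : Attains (ZMod 14) 4 := by
  refine ⟨by rw [Nat.card_zmod]; norm_num, by rw [Nat.card_zmod]; norm_num, {0, 1, 4, 6}, ?_, rfl⟩
  unfold IsSidon
  decide

lemma attains_cyclic (G : Type*) [AddCommGroup G] {m : ℕ} (hm1 : 1 ≤ m) (hm : m ≤ 4)
    (hcard : Nat.card G + m = m * m + 2) (hc : IsAddCyclic G) : Attains G m := by
  have e := zmodAddCyclicAddEquiv (G := G) hc
  interval_cases m
  · have h : Nat.card G = 2 := by omega
    rw [h] at e
    exact at1.congr e
  · have h : Nat.card G = 4 := by omega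
    rw [h] at e
    exact at2.congr e
  · have h : Nat.card G = 8 := by omega
    rw [h] at e
    exact at3.congr e
  · have h : Nat.card G = 14 := by omega
    rw [h] at e
    exact at4.congr e

/-- the number `m` in `Attains G m` is determined by `|G|`. -/
lemma attains_unique (G : Type*) [AddCommGroup G] {m k : ℕ} (h1 : m * m + 1 ≤ Nat.card G + m)
    (h2 : Nat.card G ≤ m * m + m) (h : Attains G k) : k = m := by
  obtain ⟨h3, h4, _⟩ := h
  rcases lt_trichotomy k m with hk | hk | hk
  · exfalso
    obtain ⟨d, rfl⟩ : ∃ d, m = k + 1 + d := ⟨m - (k + 1), by omega⟩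
    nlinarith
  · exact hk
  · exfalso
    obtain ⟨d, rfl⟩ : ∃ d, k = m + 1 + d := ⟨k - (m + 1), by omega⟩
    nlinarith

end Pool.Agent.H37SID
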