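import Mathlib

namespace Pool.Agent.H37SID

open Finset

variable {G : Type*} [AddCommGroup G] [Fintype G] [DecidableEq G]

/-- Sidon set: the sums of two elements (equal elements allowed) determine the two elements. -/
def Sidon (A : Finset G) : Prop :=
  ∀ a ∈ A, ∀ b ∈ A, ∀ c ∈ A, ∀ d ∈ A, a + b = c + d → (a = c ∧ b = d) ∨ (a = d ∧ b = c)

/-- Elements that are not differences of two elements of `A`. -/
def miss (A : Finset G) : Finset G := univ.filter (fun x => ∀ a ∈ A, ∀ b ∈ A, a - b ≠ x)

/-- Number of solutions of `2 a - b = g`. -/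
def TT (A : Finset G) (g : G) : ℕ := (A.filter (fun a => a + a - g ∈ A)).card

/-- Number of `d` among the missing differences with `g - d` in `A`. -/
def ff (A : Finset G) (g : G) : ℕ := ((miss A).filter (fun d => g - d ∈ A)).card

lemma mem_miss {A : Finset G} {x : G} : x ∈ miss A ↔ ∀ a ∈ A, ∀ b ∈ A, a - b ≠ x := by
  simp [miss]

lemma not_mem_miss {A : Finset G} {x : G} (h : x ∉ miss A) : ∃ a ∈ A, ∃ b ∈ A, a - b = x := by
  by_contra hc
  push Not at hc
  exact h (mem_miss.2 hc)

lemma sub_unique {A : Finset G} (hA : Sidon A) {a b c d : G} (ha : a ∈ A) (hb : b ∈ A)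
    (hc : c ∈ A) (hd : d ∈ A) (h : a - b = c - d) (hne : a ≠ b) : a = c ∧ b = d := by
  have h1 : a + d = c + b := by
    have this : a - b + b + d = c - d + b + d := congrArg (fun z => z + b + d) h
    calc a + d = a - b + b + d := by abel
      _ = c - d + b + d := this
      _ = c + b := by abel
  rcases hA a ha d hd c hc b hb h1 with ⟨h2, h3⟩ | ⟨h2, h3⟩
  · exact ⟨h2, h3.symm⟩
  · exact absurd h2 hne

lemma dbl_inj {A : Finset G} (hA : Sidon A) {a b : G} (ha : a ∈ A) (hb : b ∈ A)
    (h : a + a = b + b) : a = b := by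
  rcases hA a ha a ha b hb b hb h with ⟨h1, _⟩ | ⟨h1, _⟩ <;> exact h1

lemma zero_not_miss {A : Finset G} (hne : A.Nonempty) : (0 : G) ∉ miss A := by
  obtain ⟨a, ha⟩ := hne
  intro h
  exact mem_miss.1 h a ha a ha (sub_self a)

lemma card_miss {A : Finset G} (hA : Sidon A) (hne : A.Nonempty) :
    (miss A).card + 1 + (A.card * A.card - A.card) = Fintype.card G := by
  have h1 : (A.offDiag.image (fun p => p.1 - p.2)).card = A.offDiag.card := by
    apply card_image_of_injOn
    intro p hp q hq h
    simp only [coe_offDiag, Set.mem_offDiag, mem_coe] at hp hq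
    have := sub_unique hA hp.1 hp.2.1 hq.1 hq.2.1 h hp.2.2
    exact Prod.ext this.1 this.2
  have h2 : (0 : G) ∉ A.offDiag.image (fun p => p.1 - p.2) := by
    intro h
    rw [mem_image] at h
    obtain ⟨p, hp, h⟩ := h
    rw [mem_offDiag] at hp
    exact hp.2.2 (sub_eq_zero.1 h)
  have h3 : miss A = (insert 0 (A.offDiag.image (fun p => p.1 - p.2)))ᶜ := by
    ext x
    rw [mem_miss, mem_compl, mem_insert, mem_image]
    constructor
    · intro h hc
      rcases hc with hc | ⟨p, hp, hc⟩
      · obtain ⟨a, ha⟩ := hne
        exact h a ha a ha (by rw [hc]; exact sub_self a)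
      · rw [mem_offDiag] at hp
        exact h p.1 hp.1 p.2 hp.2.1 hc
    · intro h a ha b hb hab
      apply h
      by_cases hx : a = b
      · left
        rw [← hab, hx, sub_self]
      · right
        exact ⟨(a, b), by rw [mem_offDiag]; exact ⟨ha, hb, hx⟩, hab⟩
  rw [h3, card_compl, card_insert_of_notMem h2, h1, offDiag_card]
  have h4 : (insert 0 (A.offDiag.image (fun p => p.1 - p.2))).card ≤ Fintype.card G :=
    card_le_univ _
  rw [card_insert_of_notMem h2, h1, offDiag_card] at h4
  omega

/-- `f` counted by the elements of `A`. -/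
lemma ff_eq (A : Finset G) (g : G) : ff A g = (A.filter (fun a => g - a ∈ miss A)).card := by
  unfold ff
  apply card_bij (fun d _ => g - d)
  · intro d hd
    rw [mem_filter] at hd ⊢
    refine ⟨hd.2, ?_⟩
    have : g - (g - d) = d := by abel
    rw [this]
    exact hd.1
  · intro d _ d' _ h
    exact sub_right_injective h
  · intro a ha
    rw [mem_filter] at ha
    refine ⟨g - a, ?_, by abel⟩
    rw [mem_filter]
    refine ⟨ha.2, ?_⟩
    have : g - (g - a) = a := by abel
    rw [this]
    exact ha.1

/-- for `x ≠ 0` there is at most one `a ∈ A` with `a + x ∈ A`. -/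
lemma rep_le_one {A : Finset G} (hA : Sidon A) {x : G} (hx : x ≠ 0) :
    (A.filter (fun a => a + x ∈ A)).card ≤ 1 := by
  rw [card_le_one]
  intro a ha b hb
  rw [mem_filter] at ha hb
  have h1 : a + x - a = b + x - b := by abel
  have h2 : a + x ≠ a := by
    intro h
    exact hx (by simpa using h)
  exact (sub_unique hA ha.2 ha.1 hb.2 hb.1 h1 h2).2

/-- number of `a ∈ A` with `a + x ∈ A`. -/
lemma rep_eq {A : Finset G} (hA : Sidon A) (x : G) :
    (A.filter (fun a => a + x ∈ A)).card + (if x ∈ miss A then 1 else 0)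
      = 1 + (if x = 0 then A.card - 1 else 0) ∨ A = ∅ := by
  by_cases hne : A.Nonempty
  swap
  · right
    exact not_nonempty_iff_eq_empty.1 hne
  left
  by_cases hx : x = 0
  · subst hx
    have h1 : A.filter (fun a => a + 0 ∈ A) = A := by
      ext a
      simp
    rw [h1]
    have := zero_not_miss hne
    have h2 : 0 < A.card := card_pos.2 hne
    simp [this]
    omega
  · by_cases hm : x ∈ miss A
    · have h1 : A.filter (fun a => a + x ∈ A) = ∅ := by
        rw [filter_eq_empty_iff]
        intro a ha hax
        exact mem_miss.1 hm (a + x) hax a ha (by abel)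
      rw [h1]
      simp [hm, hx]
    · obtain ⟨a, ha, b, hb, hab⟩ := not_mem_miss hm
      have h1 : 1 ≤ (A.filter (fun a => a + x ∈ A)).card := by
        rw [Nat.one_le_iff_ne_zero, ← Nat.pos_iff_ne_zero, card_pos]
        refine ⟨b, ?_⟩
        rw [mem_filter]
        refine ⟨hb, ?_⟩
        have : b + x = a := by rw [← hab]; abel
        rw [this]
        exact ha
      have h2 := rep_le_one hA hx
      simp [hm, hx]
      omega

/-- Parity: swap `a` and `a'` in `a + a' - b = g`. -/
lemma parity {A : Finset G} (hA : Sidon A) (hodd : Odd A.card) (g : G) :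
    Odd (TT A g + ff A g) := by
  classical
  have hne : A.Nonempty := by
    rw [← card_pos]
    exact hodd.pos
  set P : Finset (G × G) := (A ×ˢ A).filter (fun p => p.1 + p.2 - g ∈ A) with hP
  -- mod 2
  have h1 : ((P.card : ℕ) : ZMod 2) = ((TT A g : ℕ) : ZMod 2) := by
    have h2 : P.card = (P.filter (fun p => p.1 = p.2)).card
        + (P.filter (fun p => ¬ p.1 = p.2)).card := by
      rw [card_filter_add_card_filter_not]
    have h3 : (P.filter (fun p => p.1 = p.2)).card = TT A g := by
      unfold TT
      apply card_bij (fun p _ => p.1)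
      · intro p hp
        rw [mem_filter, hP, mem_filter, mem_product] at hp
        rw [mem_filter]
        refine ⟨hp.1.1.1, ?_⟩
        have := hp.1.2
        rw [← hp.2] at this
        exact this
      · intro p hp q hq h
        rw [mem_filter] at hp hq
        exact Prod.ext h (by rw [← hp.2, ← hq.2]; exact h)
      · intro a ha
        rw [mem_filter] at ha
        refine ⟨(a, a), ?_, rfl⟩
        rw [mem_filter, hP, mem_filter, mem_product]
        exact ⟨⟨⟨ha.1, ha.1⟩, ha.2⟩, rfl⟩
    have h4 : (((P.filter (fun p => ¬ p.1 = p.2)).card : ℕ) : ZMod 2) = 0 := by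
      have h5 : ∑ p ∈ P.filter (fun p => ¬ p.1 = p.2), (1 : ZMod 2) = 0 := by
        apply Finset.sum_involution (fun p _ => (p.2, p.1))
        · intro p _
          decide
        · intro p hp _ hpp
          rw [mem_filter] at hp
          exact hp.2 (congrArg Prod.snd hpp)
        · intro p hp
          rw [mem_filter, hP, mem_filter, mem_product] at hp ⊢
          refine ⟨⟨⟨hp.1.1.2, hp.1.1.1⟩, ?_⟩, fun h => hp.2 h.symm⟩
          have : p.2 + p.1 - g = p.1 + p.2 - g := by abel
          rw [this]
          exact hp.1.2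
        · intro p _
          rfl
      simpa using h5
    rw [h2]
    push_cast
    rw [h4, h3, add_zero]
  have h6 : P.card = ∑ a ∈ A, (A.filter (fun b => b + (a - g) ∈ A)).card := by
    rw [hP]
    rw [card_filter, sum_product]
    apply sum_congr rfl
    intro a _
    rw [card_filter]
    apply sum_congr rfl
    intro b _
    have : a + b - g = b + (a - g) := by abel
    simp only [this]
  have h7 : P.card + ff A g = A.card + (if g ∈ A then A.card - 1 else 0) := by
    rw [h6, ff_eq, card_filter, ← sum_add_distrib]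
    have h8 : ∀ a ∈ A, (A.filter (fun b => b + (a - g) ∈ A)).card
        + (if g - a ∈ miss A then 1 else 0) = 1 + (if a = g then A.card - 1 else 0) := by
      intro a _
      rcases rep_eq hA (a - g) with h | h
      · have h9 : (g - a ∈ miss A) ↔ (a - g ∈ miss A) := by
          rw [mem_miss, mem_miss]
          constructor
          · intro h c hc d hd hcd
            exact h d hd c hc (by rw [← neg_sub, hcd]; abel)
          · intro h c hc d hd hcd
            exact h d hd c hc (by rw [← neg_sub, hcd]; abel)
        simp only [h9]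
        rw [h]
        congr 1
        simp only [sub_eq_zero]
      · exact absurd h hne.ne_empty
    rw [sum_congr rfl h8, sum_add_distrib, sum_ite_eq']
    simp
  have hm : Even (A.card - 1) := by
    obtain ⟨k, hk⟩ := hodd
    exact ⟨k, by omega⟩
  have h10 : Odd (P.card + ff A g) := by
    rw [h7]
    split_ifs
    · exact hodd.add_even hm
    · simpa using hodd
  have h11 : (P.card % 2) = (TT A g % 2) := by
    have := (ZMod.natCast_eq_natCast_iff' _ _ 2).1 h1
    exact this
  rw [Nat.odd_iff] at h10 ⊢
  omega

lemma sum_ff (A : Finset G) : ∑ g, ff A g = A.card * (miss A).card := by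
  classical
  unfold ff
  simp only [card_filter]
  rw [sum_comm]
  have h : ∀ d ∈ miss A, ∑ g : G, (if g - d ∈ A then 1 else 0) = A.card := by
    intro d _
    rw [← card_filter]
    apply card_bij (fun g _ => g - d)
    · intro g hg
      rw [mem_filter] at hg
      exact hg.2
    · intro g _ g' _ h
      exact sub_left_injective h
    · intro a ha
      refine ⟨a + d, ?_, by abel⟩
      rw [mem_filter]
      refine ⟨mem_univ _, ?_⟩
      have : a + d - d = a := by abel
      rw [this]
      exact ha
  rw [sum_congr rfl h, sum_const, smul_eq_mul, mul_comm]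

/-- number of `g` with `f g ≥ 1` is at most `m e`. -/
lemma bad_le (A : Finset G) :
    (univ.filter (fun g => 1 ≤ ff A g)).card ≤ A.card * (miss A).card := by
  rw [← sum_ff, card_filter]
  apply sum_le_sum
  intro g _
  split_ifs with h
  · exact h
  · exact Nat.zero_le _

lemma sum_ff_sq {A : Finset G} (hA : Sidon A) :
    ∑ g, ff A g * (ff A g - 1) ≤ (miss A).card * ((miss A).card - 1) := by
  classical
  have h1 : ∀ g, ff A g * (ff A g - 1)
      = ((miss A).offDiag.filter (fun p => g - p.1 ∈ A ∧ g - p.2 ∈ A)).card := by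
    intro g
    have h2 : (miss A).offDiag.filter (fun p => g - p.1 ∈ A ∧ g - p.2 ∈ A)
        = ((miss A).filter (fun d => g - d ∈ A)).offDiag := by
      ext p
      simp only [mem_filter, mem_offDiag]
      tauto
    rw [h2, offDiag_card]
    unfold ff
    rw [Nat.mul_sub, mul_one]
  simp only [h1, card_filter]
  rw [sum_comm]
  have h3 : ∀ p ∈ (miss A).offDiag, ∑ g : G, (if g - p.1 ∈ A ∧ g - p.2 ∈ A then 1 else 0) ≤ 1 := by
    intro p hp
    rw [mem_offDiag] at hp
    rw [← card_filter, card_le_one]
    intro g hg g' hg'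
    rw [mem_filter] at hg hg'
    have h4 : (g - p.1) - (g - p.2) = (g' - p.1) - (g' - p.2) := by abel
    have h5 : g - p.1 ≠ g - p.2 := fun h => hp.2.2 (sub_right_injective h)
    have := (sub_unique hA hg.2.1 hg.2.2 hg'.2.1 hg'.2.2 h4 h5).1
    exact sub_left_injective this
  calc ∑ p ∈ (miss A).offDiag, ∑ g : G, (if g - p.1 ∈ A ∧ g - p.2 ∈ A then 1 else 0)
      ≤ ∑ p ∈ (miss A).offDiag, 1 := sum_le_sum h3
    _ = (miss A).card * ((miss A).card - 1) := by
      rw [sum_const, smul_eq_mul, mul_one, offDiag_card, Nat.mul_sub, mul_one]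

lemma sum_TT (A : Finset G) : ∑ g, TT A g = A.card * A.card := by
  classical
  unfold TT
  simp only [card_filter]
  rw [sum_comm]
  have h : ∀ a ∈ A, ∑ g : G, (if a + a - g ∈ A then 1 else 0) = A.card := by
    intro a _
    rw [← card_filter]
    apply card_bij (fun g _ => a + a - g)
    · intro g hg
      rw [mem_filter] at hg
      exact hg.2
    · intro g _ g' _ h
      exact sub_right_injective h
    · intro b hb
      refine ⟨a + a - b, ?_, by abel⟩
      rw [mem_filter]
      refine ⟨mem_univ _, ?_⟩
      have : a + a - (a + a - b) = b := by abel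
      rw [this]
      exact hb
  rw [sum_congr rfl h, sum_const, smul_eq_mul]

lemma sum_TT_sq {A : Finset G} (hA : Sidon A) :
    A.card * (A.card - 1) ≤ ∑ g, TT A g * (TT A g - 1) + A.card * (miss A).card := by
  classical
  have h1 : ∀ g, TT A g * (TT A g - 1)
      = (A.offDiag.filter (fun p => p.1 + p.1 - g ∈ A ∧ p.2 + p.2 - g ∈ A)).card := by
    intro g
    have h2 : A.offDiag.filter (fun p => p.1 + p.1 - g ∈ A ∧ p.2 + p.2 - g ∈ A)
        = (A.filter (fun d => d + d - g ∈ A)).offDiag := by
      ext p
      simp only [mem_filter, mem_offDiag]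
      tauto
    rw [h2, offDiag_card]
    unfold TT
    rw [Nat.mul_sub, mul_one]
  simp only [h1, card_filter]
  rw [sum_comm]
  have h3 : ∀ p ∈ A.offDiag, 1 ≤ ∑ g : G, (if p.1 + p.1 - g ∈ A ∧ p.2 + p.2 - g ∈ A then 1 else 0)
      + (if (p.1 + p.1) - (p.2 + p.2) ∈ miss A then 1 else 0) := by
    intro p hp
    by_cases hm : (p.1 + p.1) - (p.2 + p.2) ∈ miss A
    · simp [hm]
    · obtain ⟨a, ha, b, hb, hab⟩ := not_mem_miss hm
      rw [← card_filter]
      have h4 : 0 < (univ.filter (fun g : G => p.1 + p.1 - g ∈ A ∧ p.2 + p.2 - g ∈ A)).card := by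
        rw [card_pos]
        refine ⟨p.1 + p.1 - a, ?_⟩
        rw [mem_filter]
        refine ⟨mem_univ _, ?_, ?_⟩
        · have : p.1 + p.1 - (p.1 + p.1 - a) = a := by abel
          rw [this]
          exact ha
        · have : p.2 + p.2 - (p.1 + p.1 - a) = b := by
            have h5 : p.1 + p.1 = a - b + (p.2 + p.2) := by rw [hab]; abel
            rw [h5]
            abel
          rw [this]
          exact hb
      omega
  have h6 : ∑ p ∈ A.offDiag, (if (p.1 + p.1) - (p.2 + p.2) ∈ miss A then 1 else 0)
      ≤ A.card * (miss A).card := by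
    have h7 : ∑ p ∈ A.offDiag, (if (p.1 + p.1) - (p.2 + p.2) ∈ miss A then 1 else 0)
        ≤ ∑ p ∈ A ×ˢ A, (if (p.1 + p.1) - (p.2 + p.2) ∈ miss A then 1 else 0) := by
      apply sum_le_sum_of_subset
      intro p hp
      rw [mem_offDiag] at hp
      rw [mem_product]
      exact ⟨hp.1, hp.2.1⟩
    refine h7.trans ?_
    rw [sum_product, ← smul_eq_mul, ← sum_const]
    apply sum_le_sum
    intro a _
    rw [← card_filter]
    apply card_le_card_of_injOn (fun b => (a + a) - (b + b))
    · intro b hb
      have hb' := mem_coe.1 hb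
      rw [mem_filter] at hb'
      exact hb'.2
    · intro b hb c hc h
      have hb' := mem_coe.1 hb
      have hc' := mem_coe.1 hc
      rw [mem_filter] at hb' hc'
      exact dbl_inj hA hb'.1 hc'.1 (sub_right_injective h)
  have h8 : A.card * (A.card - 1) = ∑ p ∈ A.offDiag, 1 := by
    rw [sum_const, smul_eq_mul, mul_one, offDiag_card, Nat.mul_sub, mul_one]
  rw [h8]
  calc ∑ p ∈ A.offDiag, 1 ≤ ∑ p ∈ A.offDiag,
        (∑ g : G, (if p.1 + p.1 - g ∈ A ∧ p.2 + p.2 - g ∈ A then 1 else 0)
          + (if (p.1 + p.1) - (p.2 + p.2) ∈ miss A then 1 else 0)) := sum_le_sum h3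
    _ ≤ _ := by
      rw [sum_add_distrib]
      omega

/-- A point lies on few bad lines. -/
lemma bad_through {A : Finset G} (hA : Sidon A) (x : G) :
    (A.filter (fun a => 1 ≤ ff A (x - a))).card ≤ 2 * (miss A).card := by
  classical
  have h1 : A.filter (fun a => 1 ≤ ff A (x - a))
      ⊆ (miss A).biUnion (fun d => A.filter (fun a => x - a - d ∈ A)) := by
    intro a ha
    rw [mem_filter] at ha
    have h2 : 0 < ff A (x - a) := ha.2
    unfold ff at h2
    rw [card_pos] at h2
    obtain ⟨d, hd⟩ := h2
    rw [mem_filter] at hd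
    rw [mem_biUnion]
    exact ⟨d, hd.1, by rw [mem_filter]; exact ⟨ha.1, hd.2⟩⟩
  refine (card_le_card h1).trans ?_
  refine (card_biUnion_le).trans ?_
  have h3 : ∀ d ∈ miss A, (A.filter (fun a => x - a - d ∈ A)).card ≤ 2 := by
    intro d _
    by_cases hne : (A.filter (fun a => x - a - d ∈ A)).Nonempty
    · obtain ⟨a, ha⟩ := hne
      rw [mem_filter] at ha
      have h4 : A.filter (fun a => x - a - d ∈ A) ⊆ {a, x - a - d} := by
        intro b hb
        rw [mem_filter] at hb
        rw [mem_insert, mem_singleton]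
        have h5 : b + (x - b - d) = a + (x - a - d) := by abel
        rcases hA b hb.1 _ hb.2 a ha.1 _ ha.2 h5 with h | h
        · exact Or.inl h.1
        · exact Or.inr h.1
      exact (card_le_card h4).trans card_le_two
    · rw [not_nonempty_iff_eq_empty.1 hne]
      simp
  calc ∑ d ∈ miss A, (A.filter (fun a => x - a - d ∈ A)).card ≤ ∑ d ∈ miss A, 2 :=
        sum_le_sum h3
    _ = 2 * (miss A).card := by rw [sum_const, smul_eq_mul, mul_comm]

/-- the sum of `T` over the lines through a point outside `2A`. -/
lemma sum_through {A : Finset G} (hA : Sidon A) {x : G} (hx : ∀ c ∈ A, c + c ≠ x) :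
    ∑ a ∈ A, TT A (x - a) ≤ A.card := by
  classical
  unfold TT
  simp only [card_filter]
  rw [sum_comm]
  have h : ∀ c ∈ A, ∑ a ∈ A, (if c + c - (x - a) ∈ A then 1 else 0) ≤ 1 := by
    intro c hc
    rw [← card_filter]
    have h1 : A.filter (fun a => c + c - (x - a) ∈ A)
        = A.filter (fun a => a + (c + c - x) ∈ A) := by
      apply filter_congr
      intro a _
      have : c + c - (x - a) = a + (c + c - x) := by abel
      rw [this]
    rw [h1]
    apply rep_le_one hA
    intro h2
    exact hx c hc (sub_eq_zero.1 h2)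
  calc ∑ c ∈ A, ∑ a ∈ A, (if c + c - (x - a) ∈ A then 1 else 0) ≤ ∑ c ∈ A, 1 := sum_le_sum h
    _ = A.card := by simp

/-- the main local inequality. -/
lemma local_ineq {A : Finset G} (hA : Sidon A) (hodd : Odd A.card) {x a0 : G} (ha0 : a0 ∈ A)
    (hx : ∀ c ∈ A, c + c ≠ x) :
    TT A (x - a0) ≤ 1 + ((A.erase a0).filter (fun a => 1 ≤ ff A (x - a))).card := by
  classical
  have h1 := sum_through hA hx
  rw [← add_sum_erase A _ ha0] at h1
  have h2 : ((A.erase a0).filter (fun a => ¬ 1 ≤ ff A (x - a))).card
      ≤ ∑ a ∈ A.erase a0, TT A (x - a) := by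
    rw [card_filter]
    apply sum_le_sum
    intro a _
    by_cases h : 1 ≤ ff A (x - a)
    · simp [h]
    · have h3 : ff A (x - a) = 0 := by omega
      have h4 := parity hA hodd (x - a)
      rw [h3, add_zero] at h4
      rw [if_pos h]
      exact h4.pos
  have h5 : ((A.erase a0).filter (fun a => 1 ≤ ff A (x - a))).card
      + ((A.erase a0).filter (fun a => ¬ 1 ≤ ff A (x - a))).card = A.card - 1 := by
    rw [card_filter_add_card_filter_not, card_erase_of_mem ha0]
  have h6 : 0 < A.card := card_pos.2 ⟨a0, ha0⟩
  omega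

/-- number of points of the line `A + g` in `2A`. -/
lemma TT_eq_line {A : Finset G} (hA : Sidon A) (g : G) :
    (A.filter (fun a => ∃ c ∈ A, c + c = g + a)).card = TT A g := by
  classical
  symm
  unfold TT
  apply card_bij (fun c _ => c + c - g)
  · intro c hc
    rw [mem_filter] at hc ⊢
    exact ⟨hc.2, c, hc.1, by abel⟩
  · intro c hc d hd h
    rw [mem_filter] at hc hd
    exact dbl_inj hA hc.1 hd.1 (sub_left_injective h)
  · intro a ha
    rw [mem_filter] at ha
    obtain ⟨haA, c, hc, hca⟩ := ha
    refine ⟨c, ?_, ?_⟩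
    · rw [mem_filter]
      refine ⟨hc, ?_⟩
      rw [hca]
      have : g + a - g = a := by abel
      rw [this]
      exact haA
    · rw [hca]
      abel

lemma point_off {A : Finset G} (hA : Sidon A) {g : G} (h : TT A g ≠ A.card) :
    ∃ a ∈ A, ∀ c ∈ A, c + c ≠ g + a := by
  classical
  by_contra hc
  push Not at hc
  apply h
  rw [← TT_eq_line hA g]
  congr 1
  rw [filter_eq_self]
  intro a ha
  exact hc a ha

lemma TT_le {A : Finset G} (hA : Sidon A) (hodd : Odd A.card) {g : G} (h : TT A g ≠ A.card) :
    TT A g ≤ 1 + 2 * (miss A).card := by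
  classical
  obtain ⟨a, ha, hc⟩ := point_off hA h
  have h1 := local_ineq hA hodd ha hc
  have h2 : g + a - a = g := by abel
  rw [h2] at h1
  have h3 := bad_through hA (g + a)
  have h4 : ((A.erase a).filter (fun b => 1 ≤ ff A (g + a - b))).card
      ≤ (A.filter (fun b => 1 ≤ ff A (g + a - b))).card :=
    card_le_card (filter_subset_filter _ (erase_subset a A))
  omega

/-- averaging over the points of the line outside `2A`. -/
lemma avg {A : Finset G} (hA : Sidon A) (hodd : Odd A.card) (g : G) :
    (A.card - TT A g) * (TT A g - 1) ≤ A.card * (miss A).card := by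
  classical
  set B : Finset G := A.filter (fun a => ¬ ∃ c ∈ A, c + c = g + a) with hB
  have h1 : TT A g + B.card = A.card := by
    rw [← TT_eq_line hA g, hB, card_filter_add_card_filter_not]
  have h2 : ∀ a ∈ B, TT A g - 1 ≤ ((A.erase a).filter (fun b => 1 ≤ ff A (g + a - b))).card := by
    intro a ha
    rw [hB, mem_filter] at ha
    have h3 : ∀ c ∈ A, c + c ≠ g + a := by
      intro c hc h
      exact ha.2 ⟨c, hc, h⟩
    have h4 := local_ineq hA hodd ha.1 h3
    have h5 : g + a - a = g := by abel
    rw [h5] at h4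
    omega
  have h6 : B.card * (TT A g - 1)
      ≤ ∑ a ∈ B, ((A.erase a).filter (fun b => 1 ≤ ff A (g + a - b))).card := by
    rw [← smul_eq_mul, ← sum_const]
    exact sum_le_sum h2
  have h7 : ∑ a ∈ B, ((A.erase a).filter (fun b => 1 ≤ ff A (g + a - b))).card
      ≤ (univ.filter (fun h => 1 ≤ ff A h)).card := by
    rw [← card_sigma]
    apply card_le_card_of_injOn (fun p => g + p.1 - p.2)
    · intro p hp
      have hp' := mem_sigma.1 (mem_coe.1 hp)
      have hp2 := mem_filter.1 hp'.2
      have : g + p.1 - p.2 ∈ univ.filter (fun h => 1 ≤ ff A h) := by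
        rw [mem_filter]
        exact ⟨mem_univ _, hp2.2⟩
      exact this
    · intro p hp q hq h
      have hp' := mem_sigma.1 (mem_coe.1 hp)
      have hq' := mem_sigma.1 (mem_coe.1 hq)
      have hp2 := mem_erase.1 (mem_filter.1 hp'.2).1
      have hq2 := mem_erase.1 (mem_filter.1 hq'.2).1
      have hpA : p.1 ∈ A := by
        have := hp'.1
        rw [hB, mem_filter] at this
        exact this.1
      have hqA : q.1 ∈ A := by
        have := hq'.1
        rw [hB, mem_filter] at this
        exact this.1
      have h8 : p.1 - p.2 = q.1 - q.2 := by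
        have h9 : g + p.1 - p.2 = g + q.1 - q.2 := h
        have h10 : g + (p.1 - p.2) = g + (q.1 - q.2) := by
          rw [← add_sub_assoc, ← add_sub_assoc]
          exact h9
        exact add_left_cancel h10
      have h11 := sub_unique hA hpA hp2.2 hqA hq2.2 h8 (fun h => hp2.1 h.symm)
      obtain ⟨p1, p2⟩ := p
      obtain ⟨q1, q2⟩ := q
      simp only at h11
      rw [h11.1, h11.2]
  have h12 : A.card - TT A g = B.card := by omega
  rw [h12]
  exact h6.trans (h7.trans (bad_le A))

/-- If `2A = A + g` then `m ≤ e`. -/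
lemma multiplier_case {A : Finset G} (hA : Sidon A) (hodd : Odd A.card) {g : G}
    (hg : TT A g = A.card) : A.card * (miss A).card ≤ (miss A).card * (miss A).card := by
  classical
  have hne : A.Nonempty := by
    rw [← card_pos]
    exact hodd.pos
  -- all a satisfy a + a - g ∈ A
  have h1 : ∀ a ∈ A, a + a - g ∈ A := by
    have h2 : A.filter (fun a => a + a - g ∈ A) = A := by
      apply eq_of_subset_of_card_le (filter_subset _ _)
      have : TT A g = (A.filter (fun a => a + a - g ∈ A)).card := rfl
      omega
    intro a ha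
    rw [← h2, mem_filter] at ha
    exact ha.2
  have h3 : A.image (fun a => a + a - g) = A := by
    apply eq_of_subset_of_card_le
    · intro b hb
      rw [mem_image] at hb
      obtain ⟨a, ha, hb⟩ := hb
      rw [← hb]
      exact h1 a ha
    · rw [card_image_of_injOn]
      intro a ha b hb h
      exact dbl_inj hA ha hb (sub_left_injective h)
  have h4 : ∀ h, TT A h = (A.filter (fun b => b + (g - h) ∈ A)).card := by
    intro h
    unfold TT
    apply card_bij (fun a _ => a + a - g)
    · intro a ha
      rw [mem_filter] at ha ⊢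
      refine ⟨h1 a ha.1, ?_⟩
      have : a + a - g + (g - h) = a + a - h := by abel
      rw [this]
      exact ha.2
    · intro a ha b hb hab
      rw [mem_filter] at ha hb
      exact dbl_inj hA ha.1 hb.1 (sub_left_injective hab)
    · intro b hb
      rw [mem_filter] at hb
      have hb1 := hb.1
      rw [← h3, mem_image] at hb1
      obtain ⟨a, ha, hab⟩ := hb1
      refine ⟨a, ?_, hab⟩
      rw [mem_filter]
      refine ⟨ha, ?_⟩
      have : a + a - h = b + (g - h) := by rw [← hab]; abel
      rw [this]
      exact hb.2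
  -- f h ≤ f h (f h - 1) + [g - h ∈ miss]
  have h5 : ∀ h, ff A h ≤ ff A h * (ff A h - 1) + (if g - h ∈ miss A then 1 else 0) := by
    intro h
    have h6 := parity hA hodd h
    rw [h4 h] at h6
    rcases rep_eq hA (g - h) with h7 | h7
    swap
    · exact absurd h7 hne.ne_empty
    by_cases hm : g - h ∈ miss A
    · rw [if_pos hm]
      rcases Nat.lt_or_ge (ff A h) 2 with h8 | h8
      · omega
      · have : 1 ≤ ff A h - 1 := by omega
        nlinarith [Nat.mul_le_mul_left (ff A h) this]
    · rw [if_neg hm]
      rw [if_neg hm] at h7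
      have h9 : Even (ff A h) := by
        have h10 : Odd ((A.filter (fun b => b + (g - h) ∈ A)).card) := by
          by_cases h0 : g - h = 0
          · rw [if_pos h0] at h7
            have : (A.filter (fun b => b + (g - h) ∈ A)).card = A.card := by
              have := card_pos.2 hne
              omega
            rw [this]
            exact hodd
          · rw [if_neg h0] at h7
            have : (A.filter (fun b => b + (g - h) ∈ A)).card = 1 := by omega
            rw [this]
            exact odd_one
        rw [Nat.odd_add] at h6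
        exact h6.1 h10
      rcases Nat.eq_zero_or_pos (ff A h) with h8 | h8
      · rw [h8]
      · have h11 : 2 ≤ ff A h := by
          obtain ⟨k, hk⟩ := h9
          omega
        have : 1 ≤ ff A h - 1 := by omega
        nlinarith [Nat.mul_le_mul_left (ff A h) this]
  have h12 : ∑ h, (if g - h ∈ miss A then 1 else 0) = (miss A).card := by
    rw [← card_filter]
    apply card_bij (fun h _ => g - h)
    · intro h hh
      rw [mem_filter] at hh
      exact hh.2
    · intro h _ h' _ hh
      exact sub_right_injective hh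
    · intro d hd
      refine ⟨g - d, ?_, by abel⟩
      rw [mem_filter]
      refine ⟨mem_univ _, ?_⟩
      have : g - (g - d) = d := by abel
      rw [this]
      exact hd
  have h13 := sum_ff_sq hA
  have h14 : ∑ h, ff A h ≤ ∑ h, (ff A h * (ff A h - 1) + (if g - h ∈ miss A then 1 else 0)) :=
    sum_le_sum (fun h _ => h5 h)
  rw [sum_add_distrib, h12, sum_ff] at h14
  rcases Nat.eq_zero_or_pos (miss A).card with h15 | h15
  · rw [h15]
    simp
  · have h16 : (miss A).card * ((miss A).card - 1) + (miss A).card
        = (miss A).card * (miss A).card := by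
      obtain ⟨k, hk⟩ : ∃ k, (miss A).card = k + 1 := ⟨(miss A).card - 1, by omega⟩
      rw [hk]
      have : k + 1 - 1 = k := by omega
      rw [this]
      ring
    omega

/-- arithmetic of the averaging step. -/
lemma arith1 {m e t : ℕ} (hm : (e + 1) * (e + 2) < m) (ht1 : t ≤ 1 + 2 * e) (ht2 : e + 2 ≤ t)
    (h : (m - t) * (t - 1) ≤ m * e) : False := by
  obtain ⟨s, rfl⟩ : ∃ s, t = e + 2 + s := ⟨t - (e + 2), by omega⟩
  have hs : s + 1 ≤ e := by omega
  obtain ⟨k, rfl⟩ : ∃ k, m = (e + 1) * (e + 2) + 1 + k := ⟨m - ((e + 1) * (e + 2) + 1), by omega⟩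
  have h1 : (e + 1) * (e + 2) + 1 + k - (e + 2 + s) = (e + 1) * (e + 2) + 1 + k - (e + 2 + s) := rfl
  have h2 : e + 2 + s ≤ (e + 1) * (e + 2) + 1 + k := by nlinarith
  obtain ⟨r, hr⟩ : ∃ r, (e + 1) * (e + 2) + 1 + k = e + 2 + s + r :=
    ⟨(e + 1) * (e + 2) + 1 + k - (e + 2 + s), by omega⟩
  rw [hr] at h
  have h3 : e + 2 + s + r - (e + 2 + s) = r := by omega
  have h4 : e + 2 + s - 1 = e + 1 + s := by omega
  rw [h3, h4] at h
  have h5 : r + s = e * e + 2 * e + 1 + k := by nlinarith
  have h6 : r * (1 + s) ≤ (e + 2 + s) * e := by nlinarith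
  have h7 : s * s ≤ s * e := Nat.mul_le_mul_left s (by omega)
  have h8 : (r + s) * (1 + s) = (e * e + 2 * e + 1 + k) * (1 + s) := by rw [h5]
  nlinarith [Nat.zero_le (k * (1 + s)), Nat.zero_le (s * e * e), Nat.zero_le (s * e)]

/-- **Theorem (odd size).** -/
theorem gap_odd {A : Finset G} (hA : Sidon A) (hodd : Odd A.card)
    (he : 1 ≤ (miss A).card) : A.card ≤ ((miss A).card + 1) * ((miss A).card + 2) := by
  classical
  by_contra hcon
  push Not at hcon
  set m := A.card with hm
  set e := (miss A).card with hedef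
  have hne : A.Nonempty := by
    rw [← card_pos]
    exact hodd.pos
  have hn := card_miss hA hne
  rw [← hm, ← hedef] at hn
  have hmpos : 1 ≤ m := hodd.pos
  by_cases hT : ∃ g, TT A g = A.card
  · obtain ⟨g, hg⟩ := hT
    have h1 := multiplier_case hA hodd hg
    rw [← hm, ← hedef] at h1
    have h2 : m ≤ e := Nat.le_of_mul_le_mul_right h1 he
    nlinarith
  · push Not at hT
    have h1 : ∀ g, TT A g ≤ e + 1 := by
      intro g
      by_contra h2
      push Not at h2
      have h3 := TT_le hA hodd (hT g)
      have h4 := avg hA hodd g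
      rw [← hm, ← hedef] at h4
      rw [← hedef] at h3
      exact arith1 hcon h3 (by omega) h4
    have h5 : ∑ g, TT A g * (TT A g - 1) ≤ (e + 1) * ∑ g, (TT A g - 1) := by
      rw [mul_sum]
      apply sum_le_sum
      intro g _
      exact Nat.mul_le_mul_right _ (h1 g)
    have h6 : ∑ g, (TT A g - 1) + Fintype.card G
        = ∑ g, TT A g + (univ.filter (fun g => TT A g = 0)).card := by
      have h7 : Fintype.card G = ∑ _g : G, 1 := by simp
      rw [h7, card_filter, ← sum_add_distrib, ← sum_add_distrib]
      apply sum_congr rfl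
      intro g _
      split_ifs with h
      · rw [h]
      · omega
    have h8 : (univ.filter (fun g => TT A g = 0)).card
        ≤ (univ.filter (fun g => 1 ≤ ff A g)).card := by
      apply card_le_card
      intro g hg
      rw [mem_filter] at hg ⊢
      refine ⟨mem_univ _, ?_⟩
      have h9 := parity hA hodd g
      rw [hg.2, zero_add] at h9
      exact h9.pos
    have h10 := bad_le A
    have h11 := sum_TT A
    have h12 := sum_TT_sq hA
    rw [← hm, ← hedef] at h10 h12
    rw [← hm] at h11
    set X := ∑ g, (TT A g - 1) with hX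
    have h13 : m ≤ m * m := Nat.le_mul_self m
    -- X + (e + 1 + (m*m - m)) ≤ m*m + m*e
    have h14 : X + (e + 1) ≤ m + m * e := by
      rw [← hn] at h6
      omega
    have h15 : m * (m - 1) ≤ (e + 1) * X + m * e := by omega
    obtain ⟨k, hk⟩ : ∃ k, m = k + 1 := ⟨m - 1, by omega⟩
    have h16 : m - 1 = k := by omega
    rw [h16] at h15
    -- X ≤ k (e+1)
    have h17 : X ≤ k * (e + 1) := by
      have : m + m * e = k * (e + 1) + (e + 1) := by rw [hk]; ring
      omega
    have h18 : (e + 1) * X ≤ (e + 1) * (k * (e + 1)) := Nat.mul_le_mul_left _ h17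
    rw [hk] at h15 hcon
    nlinarith

end Pool.Agent.H37SID
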