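import Pool.Agent.Helper13_Sid.Even
import Pool.Agent.Helper37_SID.Gap

namespace Pool.Agent.H37SID

open Finset Pool.Agent.Sid13

variable {G : Type*} [AddCommGroup G] [Fintype G] [DecidableEq G]

/-- the two notions of missing differences agree. -/
lemma miss_eq_Dm {A : Finset G} (hne : A.Nonempty) : miss A = Dm A := by
  ext x
  rw [mem_miss, mem_Dm]
  constructor
  · intro h
    refine ⟨?_, h⟩
    intro h0
    obtain ⟨a, ha⟩ := hne
    exact h a ha a ha (by rw [h0, sub_self])
  · intro h
    exact h.2

lemma key_arith {n a b : ℕ} (hab : a ≤ b) (h1 : a * (a + b + 2) ≤ 2 * a ^ 2 + (a + b))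
    (h2 : n + 2 * (a + b) ≤ 2 * (a ^ 2 + b ^ 2) + 2 * (1 + 1))
    (h3 : 2 * (a ^ 2 + b ^ 2) + 2 ≤ n + 2 * (a + b))
    (h4 : n + (a + b) = (a + b) ^ 2 + 1 + 1) (h5 : 4 < a + b) : False := by
  have h6 : a * b + a ≤ a * a + b := by nlinarith
  rcases Nat.lt_or_ge a 2 with ha | ha
  · interval_cases a
    · nlinarith
    · nlinarith
  · obtain ⟨c, rfl⟩ : ∃ c, a = c + 2 := ⟨a - 2, by omega⟩
    have h7 : b ≤ c + 2 := by
      have : (c + 1) * b ≤ (c + 1) * (c + 2) := by linarith
      exact Nat.le_of_mul_le_mul_left this (by omega)
    have h8 : b = c + 2 := le_antisymm h7 hab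
    subst h8
    nlinarith

section classes
variable {Q : Type*} [AddCommGroup Q] [Fintype Q] [DecidableEq Q]

/-- number of odd labels in a class when there is one missing difference. -/
lemma odd_class_le {A : Finset G} (hA : Pool.Agent.Sid13.IsSidon A) (heven : Even A.card)
    (π : G →+ Q) (κ : Q) {u : G} (hu : Dm A = {u}) :
    (univ.filter fun g => π g = κ ∧ Odd (tt A g)).card ≤ mm A π κ + mm A π (κ - π u) := by
  classical
  have hsub : (univ.filter fun g => π g = κ ∧ Odd (tt A g)) ⊆
      (A.filter fun a => π a = κ) ∪ ((A.filter fun a => π a = κ - π u).image fun a => a + u) := by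
    intro g hg
    simp only [mem_filter, mem_univ, true_and] at hg
    obtain ⟨hgκ, hodd⟩ := hg
    rw [mem_union]
    by_cases hgA : g ∈ A
    · left
      rw [mem_filter]
      exact ⟨hgA, hgκ⟩
    · right
      have hp := Pool.Agent.Sid13.parity hA hgA
      have hrr : 0 < rr A g := by
        rcases Nat.eq_zero_or_pos (rr A g) with h0 | h0
        · exfalso
          rw [h0, add_zero] at hp
          obtain ⟨u, hu⟩ := hp
          obtain ⟨v, hv⟩ := heven
          obtain ⟨w, hw⟩ := hodd
          omega
        · exact h0
      obtain ⟨a, ha⟩ := Finset.card_pos.1 hrr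
      rw [mem_filter, hu, mem_singleton] at ha
      rw [mem_image]
      refine ⟨a, ?_, ?_⟩
      · rw [mem_filter]
        refine ⟨ha.1, ?_⟩
        rw [← ha.2, map_sub, hgκ]
        abel
      · rw [← ha.2]
        abel
  refine (card_le_card hsub).trans ((card_union_le _ _).trans ?_)
  exact Nat.add_le_add_left card_image_le _

lemma class_key_one {A : Finset G} (hA : Pool.Agent.Sid13.IsSidon A) (heven : Even A.card)
    (π : G →+ Q) (hs : Function.Surjective π)
    (hk : ∀ x, π x = 0 ↔ ∃ y, y + y = x) (hQ : Fintype.card Q = 2) (κ : Q) {u : G}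
    (hu : Dm A = {u}) :
    mm A π κ * (A.card + 2) ≤ 2 * mm A π κ ^ 2 + (mm A π κ + mm A π (κ - π u)) := by
  have h1 := class_t A π hk κ
  have h2 := class_tt hA π hs hk κ
  have h3 := odd_class_le hA heven π κ hu
  rw [hQ] at h2
  have h4 : 2 * ∑ g ∈ univ.filter (fun g => π g = κ), tt A g ≤
      ∑ g ∈ univ.filter (fun g => π g = κ), tt A g ^ 2 +
        (univ.filter fun g => π g = κ ∧ Odd (tt A g)).card := by
    rw [← Finset.filter_filter, Finset.card_filter, Finset.mul_sum, ← Finset.sum_add_distrib]
    exact Finset.sum_le_sum fun g _ => two_mul_le_sq_add _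
  rw [h1] at h4
  nlinarith

/-- one missing difference: `m ≤ 4`, and `|G[2]| = 2`. -/
lemma one_miss {A : Finset G} (hA : Pool.Agent.Sid13.IsSidon A) (hne : A.Nonempty)
    (π : G →+ Q) (hs : Function.Surjective π)
    (hk : ∀ x, π x = 0 ↔ ∃ y, y + y = x) (hD : (Dm A).card = 1) :
    A.card ≤ 4 ∧ Fintype.card Q = 2 := by
  classical
  have hcard := card_Dm hA hne
  rw [hD] at hcard
  have hpos : 0 < A.card := card_pos.2 hne
  have hG : Even (Fintype.card G) := by
    have h1 : Even (A.card ^ 2 + A.card) := by
      rw [sq]
      have := Nat.even_mul_succ_self A.card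
      rw [Nat.mul_succ] at this
      exact this
    have h2 : Fintype.card G + 2 * A.card = A.card ^ 2 + A.card + 2 := by omega
    have h3 : Even (Fintype.card G + 2 * A.card) := by
      rw [h2]
      exact h1.add even_two
    exact (Nat.even_add.1 h3).2 (even_two_mul _)
  have hQ : Fintype.card Q = 2 := by
    have h1 := card_Q_le hA hne π hs hk
    have h2 := two_le_card_Q hG π hs hk
    omega
  refine ⟨?_, hQ⟩
  have hge := class_sq_ge hA π hs hk
  have hle := class_sq_le hA π hs hk
  have hsum := sum_mm A π
  rw [hQ] at hge hle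
  rw [hD] at hge
  obtain ⟨x, y, hxy, huniv⟩ := Finset.card_eq_two.1 (by rw [Finset.card_univ]; exact hQ :
    (univ : Finset Q).card = 2)
  rw [huniv, sum_pair hxy] at hge hle hsum
  rcases Nat.even_or_odd A.card with heven | hodd
  · obtain ⟨u, hu⟩ := Finset.card_eq_one.1 hD
    have hx := class_key_one hA heven π hs hk hQ x hu
    have hy := class_key_one hA heven π hs hk hQ y hu
    by_cases hpu : π u = 0
    · rw [hpu, sub_zero] at hx hy
      set α := mm A π x
      set β := mm A π y
      by_contra hcon
      push Not at hcon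
      rw [← hsum] at hx hy hge hle hcon hcard
      have hx' : α * (α + β) ≤ 2 * α ^ 2 := by nlinarith
      have hy' : β * (α + β) ≤ 2 * β ^ 2 := by nlinarith
      have h1 : α * β ≤ α ^ 2 := by nlinarith
      have h2 : α * β ≤ β ^ 2 := by nlinarith
      rcases Nat.eq_zero_or_pos α with ha | ha
      · rw [ha] at *
        nlinarith
      · rcases Nat.eq_zero_or_pos β with hb | hb
        · rw [hb] at *
          nlinarith
        · have h3 : β ≤ α := by
            have : α * β ≤ α * α := by nlinarith
            exact Nat.le_of_mul_le_mul_left this ha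
          have h4 : α ≤ β := by
            have : β * α ≤ β * β := by nlinarith
            exact Nat.le_of_mul_le_mul_left this hb
          have h5 : α = β := le_antisymm h4 h3
          rw [h5] at *
          nlinarith
    · have hx1 : x - π u = y := by
        have h1 : x - π u ∈ (univ : Finset Q) := mem_univ _
        rw [huniv, mem_insert, mem_singleton] at h1
        rcases h1 with h1 | h1
        · exact absurd (sub_eq_self.1 h1) hpu
        · exact h1
      have hy1 : y - π u = x := by
        have h1 : y - π u ∈ (univ : Finset Q) := mem_univ _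
        rw [huniv, mem_insert, mem_singleton] at h1
        rcases h1 with h1 | h1
        · exact h1
        · exact absurd (sub_eq_self.1 h1) hpu
      rw [hx1] at hx
      rw [hy1] at hy
      set α := mm A π x
      set β := mm A π y
      by_contra hcon
      push Not at hcon
      rw [← hsum] at hx hy hge hle hcon hcard
      rcases Nat.le_total α β with h | h
      · exact key_arith h hx hge hle hcard hcon
      · exact key_arith (n := Fintype.card G) h (by rw [Nat.add_comm β α]; linarith)
          (by linarith) (by linarith) (by rw [Nat.add_comm β α]; exact hcard) (by linarith)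
  · have h1 := gap_odd (A := A) hA hodd (by rw [miss_eq_Dm hne, hD])
    rw [miss_eq_Dm hne, hD] at h1
    by_contra hcon
    push Not at hcon
    have h2 : A.card = 5 := by
      obtain ⟨k, hk'⟩ := hodd
      omega
    rw [h2] at hge hle hsum hcard
    have h3 : Fintype.card G = 22 := by omega
    rw [h3] at hge hle
    set α := mm A π x
    set β := mm A π y
    have ha : α ≤ 5 := by omega
    have hb : β = 5 - α := by omega
    rw [hb] at hge hle
    interval_cases α <;> omega

end classes

end Pool.Agent.H37SID
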